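import Pool.Agent.H21.WN.Targets

/-!
Row QGC of the board wn: quasi-generic measures are quasi-generic along windows.
-/

set_option autoImplicit false

namespace Pool.Agent.H60.WN

open MeasureTheory ProbabilityTheory Filter Topology Finset
open Pool.Agent.H89.MT (I1 X pt lavg QuasiGeneric)
open Pool.Agent.H24.WT (QGW)
open Pool.Agent.H21.WN

theorem pf_QGC : T_QGC := by
  intro u κ _ hq
  obtain ⟨hP, N, hN, hF⟩ := hq
  obtain ⟨k0, hk0⟩ := (hN.eventually_ge_atTop 3).exists_forall_of_atTop
  have hZ : ∀ k, 3 ≤ N (k + k0) := fun k => hk0 _ (Nat.le_add_left _ _)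
  have hsh : Tendsto (fun k => N (k + k0)) atTop atTop := hN.comp (tendsto_add_atTop_nat k0)
  have hlog : ∀ k, 1 ≤ Real.log (N (k + k0) : ℝ) := by
    intro k
    have h3 : (3 : ℝ) ≤ N (k + k0) := by exact_mod_cast hZ k
    rw [Real.le_log_iff_exp_le (by linarith)]
    have := Real.exp_one_lt_d9
    linarith
  refine ⟨hP, fun _ => 1, fun k => N (k + k0), fun k => ⟨le_rfl,
    (by norm_num : 1 ≤ 3).trans (hZ k), ?_⟩,
    ?_, fun F => ?_⟩
  · have h1 := Real.rpow_le_rpow_of_exponent_le (hlog k) (by norm_num : (24 / 25 : ℝ) ≤ 1)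
    rw [Real.rpow_one] at h1
    simpa using h1
  · have h1 : Tendsto (fun k => Real.log (N (k + k0) : ℝ)) atTop atTop :=
      Real.tendsto_log_atTop.comp (tendsto_natCast_atTop_atTop.comp hsh)
    simpa using h1
  · have h1 := (hF F).comp (tendsto_add_atTop_nat k0)
    refine h1.congr fun k => ?_
    simp only [Function.comp_apply, lavg, Nat.cast_one, div_one]

end Pool.Agent.H60.WN
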